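import Mathlib
import Pool.Agent.Helper44.CoverMoment
import Pool.Agent.Helper44.CoverNumeric

/-!
Families of subsets of an `n`-set in which every member `C` contains a set of at most `t` elements
lying in no member of the family properly contained in `C`.
-/

open Finset Pool.Agent.Helper44.Cover

namespace Pool.Agent.Results.MP_aadab9_co.BoundedCover

/-- the case of large `n`, from a chosen cover function -/
lemma large_n {n t : ℕ} (ht : 1 ≤ t) (hn : 12 * t ≤ n) {F : Finset (Finset (Fin n))}
    {Z : Finset (Fin n) → Finset (Fin n)} (hc : Cov F Z t) :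
    (F.card : ℝ) ≤ (1 + 144 * (t:ℝ)^2 / n) * (n.choose (n/2) : ℝ) := by
  classical
  have cardn : Fintype.card (Fin n) = n := Fintype.card_fin n
  have hF : (F.card : ℝ) = ∑ k ∈ range (n+1), lev k (cF F) := by
    have h1 := Finset.sum_powerset (univ : Finset (Fin n)) (fun W => cF F W)
    rw [card_univ, cardn] at h1
    unfold lev
    rw [← h1, powerset_univ]
    have h2 : ∀ W ∈ (univ : Finset (Finset (Fin n))), cF F W = if W ∈ F then (1:ℝ) else 0 := by
      intro W _
      unfold cF
      by_cases h : W ∈ F
      · rw [ind_true h, if_pos h]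
      · rw [ind_false h, if_neg h]
    rw [Finset.sum_congr rfl h2, Finset.sum_ite_mem, univ_inter]
    simp
  rw [hF]
  refine numeric n t ht hn (fun k => lev k (cA F Z)) (fun k => lev k (cF F))
    (fun k => lev k (cB F Z)) (outk F Z) (ek F Z) (inn F Z)
    (fun k => lev_nonneg _ fun W => cA_nonneg W) (fun k => lev_nonneg _ fun W => cF_nonneg W)
    (fun k => lev_nonneg _ fun W => cB_nonneg W) (fun k => inn_nonneg k) ?_ ?_ ?_ ?_ ?_ ?_
  · intro k
    unfold lev
    rw [← Finset.sum_add_distrib, ← Finset.sum_add_distrib,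
      Finset.sum_congr rfl (g := fun _ => (1:ℝ)) (fun W _ => c_sum hc W)]
    rw [Finset.sum_const, nsmul_eq_mul, mul_one, card_powersetCard, card_univ, cardn]
  · intro k
    have := flux hc k
    rw [cardn] at this
    exact this
  · intro k; exact outk_le hc k
  · intro k; exact ek_le hc k
  · intro k m h2 h3 h4
    have s1 := small_part hc k m (by rw [cardn]; omega) (by rw [cardn]; omega)
    have s2 := large_part hc k m h2
    rw [cardn] at s2
    have e : outk F Z k = ∑ W ∈ powersetCard k (univ : Finset (Fin n)),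
          ind (¬ isA F Z W ∧ (Q F Z W).card ≤ m) * ((Q F Z W).card : ℝ)
        + ∑ W ∈ powersetCard k (univ : Finset (Fin n)),
          ind (¬ isA F Z W ∧ ¬ (Q F Z W).card ≤ m) * ((Q F Z W).card : ℝ) := by
      rw [outk_eq, ← Finset.sum_add_distrib]
      refine Finset.sum_congr rfl fun W _ => ?_
      rw [← add_mul]
      congr 1
      by_cases h5 : isA F Z W
      · rw [ind_false (not_not.2 h5), ind_false (fun h => h.1 h5), ind_false (fun h => h.1 h5)]
        norm_num
      · by_cases h6 : (Q F Z W).card ≤ m
        · rw [ind_true h5, ind_true ⟨h5, h6⟩, ind_false (fun h => h.2 h6)]; norm_num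
        · rw [ind_true h5, ind_false (fun h => h6 h.2), ind_true ⟨h5, h6⟩]; norm_num
    rw [e]
    linarith
  · have h1 : powersetCard n (univ : Finset (Fin n)) = {univ} := by
      have h0 := powersetCard_self (univ : Finset (Fin n))
      rw [card_univ, cardn] at h0
      exact h0
    have h2 : ¬ isA F Z (univ : Finset (Fin n)) := by
      rintro ⟨C, _, h3, _⟩
      exact h3.2 (subset_univ _)
    unfold lev
    rw [h1, Finset.sum_singleton, Finset.sum_singleton]
    have h3 := c_sum hc (univ : Finset (Fin n))
    have h4 : cA F Z (univ : Finset (Fin n)) = 0 := ind_false h2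
    linarith

/-- **Theorem.** If every member `C` of the family `F` of subsets of an `n`-set contains a set `Z` of
at most `t` elements that is contained in no member of `F` properly contained in `C`, then
`|F| ≤ (1 + 144 t ^ 2 / n) * choose n (n / 2)`. -/
theorem result (t : ℕ) (ht : 1 ≤ t) (n : ℕ) (hn : 1 ≤ n) (F : Finset (Finset (Fin n)))
    (hF : ∀ C ∈ F, ∃ Z : Finset (Fin n), Z ⊆ C ∧ Z.card ≤ t ∧ ∀ T ∈ F, T ⊂ C → ¬ Z ⊆ T) :
    (F.card : ℝ) ≤ (1 + 144 * (t:ℝ)^2 / n) * (n.choose (n/2) : ℝ) := by
  classical
  choose! Z hZ1 hZ2 hZ3 using hF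
  by_cases h : 12 * t ≤ n
  · exact large_n ht h ⟨hZ1, hZ2, hZ3⟩
  · have h1 : (F.card : ℝ) ≤ 2 ^ n := by
      have : F.card ≤ 2 ^ n := by
        have := card_le_univ F
        rwa [Fintype.card_finset, Fintype.card_fin] at this
      exact_mod_cast this
    have h2 : (2:ℝ) ^ n ≤ (n + 1) * (n.choose (n/2) : ℝ) := by
      have : 2 ^ n ≤ (n + 1) * n.choose (n/2) := by
        rw [← Nat.sum_range_choose n]
        calc ∑ m ∈ range (n+1), n.choose m ≤ ∑ m ∈ range (n+1), n.choose (n/2) :=
              Finset.sum_le_sum fun m _ => Nat.choose_le_middle m n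
          _ = (n+1) * n.choose (n/2) := by rw [Finset.sum_const, card_range, smul_eq_mul]
      exact_mod_cast this
    refine h1.trans (h2.trans ?_)
    apply mul_le_mul_of_nonneg_right _ (Nat.cast_nonneg _)
    have npos : (0:ℝ) < n := by exact_mod_cast hn
    have h3 : (n:ℝ) ≤ 144 * (t:ℝ)^2 / n := by
      rw [le_div_iff₀ npos]
      have h4 : (n:ℝ) ≤ 12 * t := by
        have : n ≤ 12 * t := by omega
        exact_mod_cast this
      nlinarith
    linarith

end Pool.Agent.Results.MP_aadab9_co.BoundedCover
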