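import Pool.Agent.Helper80.Kl.Final
import Pool.Agent.Kleitman.Main

set_option autoImplicit false

namespace Pool.Agent.Results.MP_aadab9_co.UnionFreeBound

open Filter

/-- A family of sets is union-free if it contains no three distinct members `A`, `B`, `C` with
`A ∪ B = C`. -/
def UnionFree {n : ℕ} (F : Finset (Finset (Fin n))) : Prop :=
  ∀ A ∈ F, ∀ B ∈ F, ∀ C ∈ F, A ≠ B → A ≠ C → B ≠ C → A ∪ B ≠ C

/-- The sizes of the union-free families of subsets of a set with `n` elements. -/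
def sizes (n : ℕ) : Set ℕ := {m : ℕ | ∃ F : Finset (Finset (Fin n)), UnionFree F ∧ F.card = m}

/-- The largest size of a union-free family of subsets of a set with `n` elements. -/
noncomputable def u (n : ℕ) : ℕ := sSup (sizes n)

theorem isGreatest_u (n : ℕ) : IsGreatest (sizes n) (u n) := by
  have hne : (sizes n).Nonempty := ⟨0, ∅, fun A hA => absurd hA (Finset.notMem_empty A), rfl⟩
  have hb : BddAbove (sizes n) := ⟨2 ^ n, by
    rintro m ⟨F, _, rfl⟩
    have := Finset.card_le_univ F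
    rwa [Fintype.card_finset, Fintype.card_fin] at this⟩
  exact ⟨Nat.sSup_mem hne hb, fun m hm => le_csSup hb hm⟩

theorem large (n : ℕ) (hn : 10 ^ 200 ≤ n) :
    (u n : ℝ) ≤ (n.choose (n / 2) : ℝ) * (1 + 10 ^ 32 / (n : ℝ)) := by
  obtain ⟨F, hF, hFn⟩ := (isGreatest_u n).1
  rw [← hFn]
  exact Pool.Agent.Helper80.Kl.large_bound (fun c _ hK => c.main_lemma hK) hn hF

theorem all : ∃ c : ℝ, ∀ n : ℕ, 1 ≤ n →
    (u n : ℝ) ≤ (n.choose (n / 2) : ℝ) * (1 + c / (n : ℝ)) := by
  obtain ⟨c, hc⟩ := Pool.Agent.Helper80.Kl.from_main fun _ c _ hK => c.main_lemma hK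
  refine ⟨c, fun n _ => ?_⟩
  obtain ⟨F, hF, hFn⟩ := (isGreatest_u n).1
  rw [← hFn]
  exact hc n F hF

/-- the sets with `m` elements whose elements have the sum `r` modulo `n` -/
noncomputable def cls (n m : ℕ) (r : ZMod n) : Finset (Finset (Fin n)) := by
  classical
  exact (Finset.powersetCard m Finset.univ).filter (fun A => ∑ a ∈ A, ((a : ℕ) : ZMod n) = r)

theorem mem_cls {n m : ℕ} {r : ZMod n} {A : Finset (Fin n)} :
    A ∈ cls n m r ↔ A.card = m ∧ ∑ a ∈ A, ((a : ℕ) : ZMod n) = r := by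
  classical
  unfold cls
  rw [Finset.mem_filter, Finset.mem_powersetCard]
  simp

theorem exists_cls (n m : ℕ) (hn : 1 ≤ n) : ∃ r : ZMod n, n.choose m ≤ n * (cls n m r).card := by
  classical
  have : NeZero n := ⟨by omega⟩
  by_contra hcon
  push Not at hcon
  have h1 : ∑ r : ZMod n, (cls n m r).card = n.choose m := by
    have h2 := Finset.card_eq_sum_card_fiberwise
      (f := fun A : Finset (Fin n) => ∑ a ∈ A, ((a : ℕ) : ZMod n))
      (s := Finset.powersetCard m (Finset.univ : Finset (Fin n)))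
      (t := (Finset.univ : Finset (ZMod n))) (fun A _ => Finset.mem_coe.2 (Finset.mem_univ _))
    rw [Finset.card_powersetCard, Finset.card_univ, Fintype.card_fin] at h2
    rw [h2]
    refine Finset.sum_congr rfl fun r _ => ?_
    unfold cls
    rfl
  have h3 : ∑ r : ZMod n, n * (cls n m r).card < ∑ _r : ZMod n, n.choose m :=
    Finset.sum_lt_sum_of_nonempty ⟨0, Finset.mem_univ _⟩ fun r _ => hcon r
  rw [← Finset.mul_sum, h1, Finset.sum_const, Finset.card_univ, ZMod.card, smul_eq_mul] at h3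
  exact lt_irrefl _ h3

theorem lower_nat (n k : ℕ) (hk : 1 ≤ k) (hkn : k ≤ n) :
    n * n.choose k + n.choose (k - 1) ≤ n * u n := by
  classical
  obtain ⟨r, hr⟩ := exists_cls n (k - 1) (by omega)
  set F : Finset (Finset (Fin n)) := Finset.powersetCard k Finset.univ ∪ cls n (k - 1) r with hF
  have hmem : ∀ A ∈ F, A.card = k ∨ (A.card = k - 1 ∧ ∑ a ∈ A, ((a : ℕ) : ZMod n) = r) := by
    intro A hA
    rcases Finset.mem_union.1 hA with h | h
    · exact Or.inl (Finset.mem_powersetCard.1 h).2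
    · exact Or.inr (mem_cls.1 h)
  have hUF : UnionFree F := by
    intro A hA B hB C hC hAB hAC hBC hU
    have hAC' : A ⊂ C := by
      refine Finset.ssubset_iff_subset_ne.2 ⟨?_, hAC⟩
      rw [← hU]
      exact Finset.subset_union_left
    have hBC' : B ⊂ C := by
      refine Finset.ssubset_iff_subset_ne.2 ⟨?_, hBC⟩
      rw [← hU]
      exact Finset.subset_union_right
    have hA1 := Finset.card_lt_card hAC'
    have hB1 := Finset.card_lt_card hBC'
    have hCk : C.card = k := by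
      rcases hmem C hC with h | h
      · exact h
      · rcases hmem A hA with h2 | h2 <;> omega
    have hAk : A.card = k - 1 ∧ ∑ a ∈ A, ((a : ℕ) : ZMod n) = r := by
      rcases hmem A hA with h | h
      · omega
      · exact h
    have hBk : B.card = k - 1 ∧ ∑ a ∈ B, ((a : ℕ) : ZMod n) = r := by
      rcases hmem B hB with h | h
      · omega
      · exact h
    have hdA : (C \ A).card = 1 := by
      rw [Finset.card_sdiff_of_subset hAC'.1]
      omega
    have hdB : (C \ B).card = 1 := by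
      rw [Finset.card_sdiff_of_subset hBC'.1]
      omega
    obtain ⟨x, hx⟩ := Finset.card_eq_one.1 hdA
    obtain ⟨y, hy⟩ := Finset.card_eq_one.1 hdB
    have hsA := Finset.sum_sdiff (f := fun a : Fin n => ((a : ℕ) : ZMod n)) hAC'.1
    have hsB := Finset.sum_sdiff (f := fun a : Fin n => ((a : ℕ) : ZMod n)) hBC'.1
    rw [hx, Finset.sum_singleton, hAk.2] at hsA
    rw [hy, Finset.sum_singleton, hBk.2] at hsB
    have hxy : ((x : ℕ) : ZMod n) = ((y : ℕ) : ZMod n) := by
      have := hsA.trans hsB.symm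
      exact add_right_cancel this
    have hxy' : x = y := by
      rw [ZMod.natCast_eq_natCast_iff', Nat.mod_eq_of_lt x.2, Nat.mod_eq_of_lt y.2] at hxy
      exact Fin.ext hxy
    apply hAB
    have h1 : C \ A = C \ B := by rw [hx, hy, hxy']
    rw [← Finset.sdiff_sdiff_eq_self hAC'.1, ← Finset.sdiff_sdiff_eq_self hBC'.1, h1]
  have hcard : F.card = n.choose k + (cls n (k - 1) r).card := by
    rw [hF, Finset.card_union_of_disjoint, Finset.card_powersetCard, Finset.card_univ,
      Fintype.card_fin]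
    rw [Finset.disjoint_left]
    intro A h1 h2
    have h3 := (Finset.mem_powersetCard.1 h1).2
    have h4 := (mem_cls.1 h2).1
    omega
  have hu : F.card ≤ u n := (isGreatest_u n).2 ⟨F, hUF, rfl⟩
  rw [hcard] at hu
  nlinarith

theorem lower (n : ℕ) (hn : 2 ≤ n) :
    (n.choose (n / 2) : ℝ) * (1 + 1 / (3 * (n : ℝ))) ≤ u n := by
  have hk : 1 ≤ n / 2 := by omega
  have h1 := lower_nat n (n / 2) hk (Nat.div_le_self n 2)
  have h2 : n.choose (n / 2) * (n / 2) = n.choose (n / 2 - 1) * (n - (n / 2 - 1)) := by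
    have := Nat.choose_succ_right_eq n (n / 2 - 1)
    rwa [Nat.sub_add_cancel hk] at this
  have h3 : n - (n / 2 - 1) ≤ 3 * (n / 2) := by omega
  have h4 : n.choose (n / 2) ≤ 3 * n.choose (n / 2 - 1) := by
    by_contra hcon
    push Not at hcon
    have h5 : n.choose (n / 2 - 1) * (n - (n / 2 - 1)) ≤
        n.choose (n / 2 - 1) * (3 * (n / 2)) := Nat.mul_le_mul_left _ h3
    have h6 : 3 * n.choose (n / 2 - 1) * (n / 2) < n.choose (n / 2) * (n / 2) :=
      Nat.mul_lt_mul_of_pos_right hcon (by omega)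
    rw [h2] at h6
    nlinarith
  have h7 : 3 * (n * n.choose (n / 2)) + n.choose (n / 2) ≤ 3 * (n * u n) := by omega
  have h8 : (3 : ℝ) * (n * (n.choose (n / 2) : ℝ)) + (n.choose (n / 2) : ℝ) ≤ 3 * (n * u n) := by
    exact_mod_cast h7
  have hn0 : (0 : ℝ) < n := by
    have : 0 < n := by omega
    exact_mod_cast this
  have h9 : (n.choose (n / 2) : ℝ) * (1 + 1 / (3 * (n : ℝ))) =
      ((3 : ℝ) * (n * (n.choose (n / 2) : ℝ)) + (n.choose (n / 2) : ℝ)) / (3 * n) := by
    field_simp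
  rw [h9, div_le_iff₀ (by positivity)]
  linarith

theorem result :
    (∀ n : ℕ, IsGreatest (sizes n) (u n)) ∧
    (∃ c : ℝ, ∀ n : ℕ, 1 ≤ n → (u n : ℝ) ≤ (n.choose (n / 2) : ℝ) * (1 + c / (n : ℝ))) ∧
    (∀ n : ℕ, 10 ^ 200 ≤ n → (u n : ℝ) ≤ (n.choose (n / 2) : ℝ) * (1 + 10 ^ 32 / (n : ℝ))) ∧
    (∀ n : ℕ, 2 ≤ n → (n.choose (n / 2) : ℝ) * (1 + 1 / (3 * (n : ℝ))) ≤ u n) :=
  ⟨isGreatest_u, all, large, lower⟩

end Pool.Agent.Results.MP_aadab9_co.UnionFreeBound
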